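import Mathlib
import Pool.Agent.Q60.D3.Stm

/-!
# Job INS of project D3: contraction over an abelian curve
-/

set_option maxHeartbeats 400000

namespace Pool.Agent.Q6.D3

open Pool.Agent.Q60.D3 Pool.Agent.H204R3.CM Finset

theorem mulF_apply {H κ κ' : Type} [AddCommGroup H] [Module ℚ H]
    (F : MultilinearMap ℚ (fun _ : κ => H) ℂ) (G : MultilinearMap ℚ (fun _ : κ' => H) ℂ)
    (v : κ ⊕ κ' → H) :
    mulF F G v = F (fun k => v (Sum.inl k)) * G (fun k => v (Sum.inr k)) := by
  unfold mulF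
  rw [LinearMap.compMultilinearMap_apply, MultilinearMap.domCoprod_apply, LinearMap.mul'_apply]

/-- The arguments with the basis inserted. -/
def arg (X E : AV) {K : Type} (b : Fin 2 → E.H) (v : K → X.H) : K ⊕ Fin 2 → (X.prod E).H :=
  Sum.elim (fun k => ((v k, 0) : X.H × E.H)) (fun k => ((0, b k) : X.H × E.H))

theorem arg_update (X E : AV) {K : Type} [DecidableEq K] (b : Fin 2 → E.H) (v : K → X.H)
    (i : K) (x : X.H) :
    arg X E b (Function.update v i x) =
      Function.update (arg X E b v) (Sum.inl i) ((x, 0) : X.H × E.H) := by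
  funext j
  rcases j with k | k
  · by_cases h : k = i
    · subst h
      rw [Function.update_self]
      change ((Function.update v k x k, 0) : X.H × E.H) = _
      rw [Function.update_self]
    · have h' : (Sum.inl k : K ⊕ Fin 2) ≠ Sum.inl i := fun e => h (Sum.inl_injective e)
      rw [Function.update_of_ne h']
      change ((Function.update v i x k, 0) : X.H × E.H) = ((v k, 0) : X.H × E.H)
      rw [Function.update_of_ne h]
  · have h' : (Sum.inr k : K ⊕ Fin 2) ≠ Sum.inl i := fun e => by cases e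
    rw [Function.update_of_ne h']
    rfl

/-- Insertion of the basis in the last two variables. -/
def insA (X E : AV) {N K : Type} [AddCommGroup N] [Module ℚ N] (b : Fin 2 → E.H)
    (A : (X.prod E).H [⋀^K ⊕ Fin 2]→ₗ[ℚ] N) : X.H [⋀^K]→ₗ[ℚ] N where
  toFun v := A (arg X E b v)
  map_update_add' := by
    intro _ v i x y
    rw [arg_update, arg_update, arg_update, ← A.map_update_add]
    congr 2
    change ((x + y, 0) : X.H × E.H) = ((x, 0) : X.H × E.H) + ((y, 0) : X.H × E.H)
    simp
  map_update_smul' := by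
    intro _ v i c x
    rw [arg_update, arg_update, ← A.map_update_smul]
    congr 2
    change ((c • x, 0) : X.H × E.H) = c • ((x, 0) : X.H × E.H)
    simp
  map_eq_zero_of_eq' := by
    intro v i j h hij
    refine A.map_eq_zero_of_eq _ (i := Sum.inl i) (j := Sum.inl j) ?_ ?_
    · change ((v i, 0) : X.H × E.H) = ((v j, 0) : X.H × E.H)
      rw [h]
    · exact fun e => hij (Sum.inl_injective e)

/-- The complex span of the generated classes is stable under push-forward. -/
theorem insA_mem (X E : AV) (K : Type) (b : Module.Basis (Fin 2) ℚ E.H)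
    (A : (X.prod E).H [⋀^K ⊕ Fin 2]→ₗ[ℚ] ℂ) (hA : A ∈ GC (X.prod E) (K ⊕ Fin 2)) :
    insA X E b A ∈ GC X K := by
  unfold GC at hA
  induction hA using Submodule.span_induction with
  | mem A hA =>
    obtain ⟨f, hf, rfl⟩ := hA
    refine Submodule.subset_span ⟨insA X E b f, ?_, ?_⟩
    · exact Gen.push b f hf _ fun v => rfl
    · ext v
      rfl
  | zero =>
    have : insA X E b (0 : (X.prod E).H [⋀^K ⊕ Fin 2]→ₗ[ℚ] ℂ) = 0 := by
      ext v
      rfl
    rw [this]
    exact Submodule.zero_mem _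
  | add A B _ _ hA hB =>
    have : insA X E b (A + B) = insA X E b A + insA X E b B := by
      ext v
      rfl
    rw [this]
    exact Submodule.add_mem _ hA hB
  | smul c A _ hA =>
    have : insA X E b (c • A) = c • insA X E b A := by
      ext v
      rfl
    rw [this]
    exact Submodule.smul_mem _ _ hA

/-- The renaming of the variables. -/
def ren (κ κ' : Type) : (κ ⊕ Fin 1) ⊕ (κ' ⊕ Fin 1) ≃ (κ ⊕ κ') ⊕ Fin 2 :=
  (Equiv.sumSumSumComm κ (Fin 1) κ' (Fin 1)).trans
    (Equiv.sumCongr (Equiv.refl _) finSumFinEquiv)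

theorem sum_perm {W P Q K : Type} [AddCommGroup W] [Module ℚ W] [AddCommGroup P] [Module ℚ P]
    [Fintype K] [DecidableEq K] (b : Fin 2 → Q) (ε ε' : Q → ℂ)
    (M : MultilinearMap ℚ (fun _ : K => P) ℂ) (p1 : W → P) (p2 : W → Q)
    (Φ : MultilinearMap ℚ (fun _ : K ⊕ Fin 2 => W) ℂ)
    (hΦ : ∀ u : K ⊕ Fin 2 → W, Φ u = M (fun k => p1 (u (Sum.inl k))) *
      (ε (p2 (u (Sum.inr 0))) * ε' (p2 (u (Sum.inr 1))))) (v : K → P)
    (w : K ⊕ Fin 2 → W) (hw1 : ∀ k, p1 (w (Sum.inl k)) = v k) (hw2 : ∀ a, p1 (w (Sum.inr a)) = 0)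
    (hw3 : ∀ a, p2 (w (Sum.inr a)) = b a) :
    MultilinearMap.alternatization Φ w =
      (ε (b 0) * ε' (b 1) - ε (b 1) * ε' (b 0)) * MultilinearMap.alternatization M v := by
  rw [MultilinearMap.alternatization_apply, MultilinearMap.alternatization_apply]
  have h1 : ∑ p : Equiv.Perm K × Equiv.Perm (Fin 2),
      (Equiv.Perm.sign (Equiv.Perm.sumCongr p.1 p.2)) •
        Φ.domDomCongr (Equiv.Perm.sumCongr p.1 p.2) w =
      ∑ σ : Equiv.Perm (K ⊕ Fin 2), Equiv.Perm.sign σ • Φ.domDomCongr σ w := by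
    refine Fintype.sum_of_injective
      (fun p : Equiv.Perm K × Equiv.Perm (Fin 2) => Equiv.Perm.sumCongr p.1 p.2) ?_ _ _ ?_ ?_
    · exact Equiv.Perm.sumCongrHom_injective
    · intro σ hσ
      have h2 : ¬ Set.MapsTo σ (Set.range (Sum.inl : K → K ⊕ Fin 2)) (Set.range Sum.inl) := by
        intro h
        obtain ⟨p, hp⟩ := Equiv.Perm.mem_sumCongrHom_range_of_perm_mapsTo_inl h
        exact hσ ⟨p, hp⟩
      have h3 : ∃ k : K, ∃ a : Fin 2, σ (Sum.inl k) = Sum.inr a := by
        by_contra hc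
        push_neg at hc
        apply h2
        rintro _ ⟨k, rfl⟩
        rcases hs : σ (Sum.inl k) with x | a
        · exact ⟨x, rfl⟩
        · exact absurd hs (hc k a)
      obtain ⟨k, a, hk⟩ := h3
      have h4 : Φ.domDomCongr σ w = 0 := by
        rw [MultilinearMap.domDomCongr_apply, hΦ]
        rw [M.map_coord_zero k (by rw [hk, hw2]), zero_mul]
      rw [h4, smul_zero]
    · intro p
      rfl
  rw [← h1, Fintype.sum_prod_type]
  have h5 : ∑ ρ : Equiv.Perm (Fin 2), (Equiv.Perm.sign ρ) • (ε (b (ρ 0)) * ε' (b (ρ 1))) =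
      ε (b 0) * ε' (b 1) - ε (b 1) * ε' (b 0) := by
    have h6 := Matrix.det_apply (!![ε (b 0), ε' (b 0); ε (b 1), ε' (b 1)])
    rw [Matrix.det_fin_two_of] at h6
    have h7 : ∀ ρ : Equiv.Perm (Fin 2),
        ∏ i, !![ε (b 0), ε' (b 0); ε (b 1), ε' (b 1)] (ρ i) i = ε (b (ρ 0)) * ε' (b (ρ 1)) := by
      intro ρ
      rw [Fin.prod_univ_two]
      congr 1
      · generalize ρ 0 = j
        fin_cases j <;> rfl
      · generalize ρ 1 = j
        fin_cases j <;> rfl
    simp only [h7] at h6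
    rw [← h6]
    ring
  rw [← h5, sum_mul, sum_comm]
  apply sum_congr rfl
  intro ρ _
  rw [mul_sum]
  apply sum_congr rfl
  intro τ _
  rw [MultilinearMap.domDomCongr_apply, hΦ, MultilinearMap.domDomCongr_apply,
    Equiv.Perm.sign_sumCongr]
  simp only [Equiv.Perm.sumCongr_apply, Sum.map_inl, Sum.map_inr, hw1, hw3]
  rcases Int.units_eq_one_or (Equiv.Perm.sign ρ) with h | h <;>
    rcases Int.units_eq_one_or (Equiv.Perm.sign τ) with h' | h' <;>
      rw [h, h'] <;> simp <;> ring

/-- JOB INS. -/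
theorem ins (_ : S_good_alt) (_ : S_good_lin) (h3 : S_good_reindex) (h4 : S_good_mul) :
    S_ins := by
  intro X E κ κ' _ _ _ _ b ε ε' hc F G F' G' hF' hG' gF gG
  have g1 := h4 (X.prod E) (κ ⊕ Fin 1) (κ' ⊕ Fin 1) F' G' gF gG
  have g2 := h3 (X.prod E) _ ((κ ⊕ κ') ⊕ Fin 2) (ren κ κ') (mulF F' G') g1
  have g3 := insA_mem X E (κ ⊕ κ') b _ g2
  have g4 : insA X E b (MultilinearMap.alternatization ((mulF F' G').domDomCongr (ren κ κ'))) =
      ((ε fun _ => b 0) * (ε' fun _ => b 1) - (ε fun _ => b 1) * (ε' fun _ => b 0)) •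
        MultilinearMap.alternatization (mulF F G) := by
    ext v
    have := sum_perm (W := (X.prod E).H) (P := X.H) (Q := E.H) (K := κ ⊕ κ') b
      (fun w => ε fun _ => w) (fun w => ε' fun _ => w) (mulF F G)
      (fun u : X.H × E.H => u.1) (fun u : X.H × E.H => u.2)
      ((mulF F' G').domDomCongr (ren κ κ')) (by
        intro u
        rw [MultilinearMap.domDomCongr_apply, mulF_apply, hF', hG', mulF_apply]
        have e1 : (fun k => (u (ren κ κ' (Sum.inl (Sum.inl k))) : X.H × E.H).1) =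
            fun k => (u (Sum.inl (Sum.inl k)) : X.H × E.H).1 := rfl
        have e2 : (fun k => (u (ren κ κ' (Sum.inr (Sum.inl k))) : X.H × E.H).1) =
            fun k => (u (Sum.inl (Sum.inr k)) : X.H × E.H).1 := rfl
        have e3 : (fun k : Fin 1 => (u (ren κ κ' (Sum.inl (Sum.inr k))) : X.H × E.H).2) =
            fun _ => (u (Sum.inr 0) : X.H × E.H).2 := by
          funext k
          fin_cases k
          rfl
        have e4 : (fun k : Fin 1 => (u (ren κ κ' (Sum.inr (Sum.inr k))) : X.H × E.H).2) =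
            fun _ => (u (Sum.inr 1) : X.H × E.H).2 := by
          funext k
          fin_cases k
          rfl
        rw [e1, e2, e3, e4]
        ring) v (arg X E b v) (fun _ => rfl) (fun _ => rfl) (fun _ => rfl)
    exact this
  rw [g4] at g3
  have g5 := Submodule.smul_mem _
    ((ε fun _ => b 0) * (ε' fun _ => b 1) - (ε fun _ => b 1) * (ε' fun _ => b 0))⁻¹ g3
  rw [smul_smul, inv_mul_cancel₀ hc, one_smul] at g5
  exact g5

end Pool.Agent.Q6.D3
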