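import Mathlib

/-!
# Linear algebra: an operator with square `1` and a skew operator with scalar square
-/

set_option linter.unusedSectionVars false
set_option maxHeartbeats 400000

namespace Pool.Agent.Q6.D3

open Matrix Module

variable {B : Type*} [Fintype B] [DecidableEq B]

/-- The common eigenspace. -/
def ES (ψ D : Matrix B B ℂ) (l e : ℂ) : Submodule ℂ (B → ℂ) where
  carrier := {x | ψ *ᵥ x = l • x ∧ D *ᵥ x = e • x}
  zero_mem' := by
    constructor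
    · rw [mulVec_zero, smul_zero]
    · rw [mulVec_zero, smul_zero]
  add_mem' := by
    rintro x y ⟨h1, h2⟩ ⟨k1, k2⟩
    exact ⟨by rw [mulVec_add, h1, k1, smul_add], by rw [mulVec_add, h2, k2, smul_add]⟩
  smul_mem' := by
    rintro c x ⟨h1, h2⟩
    exact ⟨by rw [mulVec_smul, h1, smul_comm], by rw [mulVec_smul, h2, smul_comm]⟩

theorem mem_ES {ψ D : Matrix B B ℂ} {l e : ℂ} {x : B → ℂ} :
    x ∈ ES ψ D l e ↔ ψ *ᵥ x = l • x ∧ D *ᵥ x = e • x := Iff.rfl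

/-- The skew symmetry of an operator for the form. -/
theorem skew {O A : Matrix B B ℂ} (hA : Aᵀ * O = -(O * A)) (x y : B → ℂ) :
    (A *ᵥ x) ⬝ᵥ (O *ᵥ y) = -(x ⬝ᵥ (O *ᵥ (A *ᵥ y))) := by
  have h1 : (A *ᵥ x) ⬝ᵥ (O *ᵥ y) = x ⬝ᵥ ((Aᵀ * O) *ᵥ y) := by
    rw [← mulVec_mulVec, dotProduct_mulVec x, vecMul_transpose]
  rw [h1, hA, neg_mulVec, dotProduct_neg, mulVec_mulVec]

/-- The form is nondegenerate. -/
theorem nd {O : Matrix B B ℂ} (hOO : O * O = -1) {y : B → ℂ}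
    (h : ∀ x : B → ℂ, x ⬝ᵥ (O *ᵥ y) = 0) : y = 0 := by
  have h1 : O *ᵥ y = 0 := by
    funext i
    have h2 := h (Pi.single i 1)
    rw [single_one_dotProduct] at h2
    exact h2
  have h2 : O *ᵥ (O *ᵥ y) = -y := by
    rw [mulVec_mulVec, hOO, neg_mulVec, one_mulVec]
  rw [h1, mulVec_zero] at h2
  exact neg_eq_zero.1 h2.symm

/-- The data. -/
structure Dat (O ψ D : Matrix B B ℂ) (l : ℂ) : Prop where
  hOO : O * O = -1
  hψ : ψᵀ * O = -(O * ψ)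
  hD : Dᵀ * O = -(O * D)
  hDD : D * D = 1
  com : ψ * D = D * ψ
  sq : ψ * ψ = (l * l) • (1 : Matrix B B ℂ)
  hl : l ≠ 0

variable {O ψ D : Matrix B B ℂ} {l : ℂ}

theorem Dat.neg (h : Dat O ψ D l) : Dat O ψ D (-l) where
  hOO := h.hOO
  hψ := h.hψ
  hD := h.hD
  hDD := h.hDD
  com := h.com
  sq := by rw [neg_mul_neg, h.sq]
  hl := neg_ne_zero.2 h.hl

/-- Orthogonality of the eigenspaces. -/
theorem Dat.orth (h : Dat O ψ D l) {a b e f : ℂ} {x y : B → ℂ} (hx : x ∈ ES ψ D a e)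
    (hy : y ∈ ES ψ D b f) (hne : a + b ≠ 0 ∨ e + f ≠ 0) : x ⬝ᵥ (O *ᵥ y) = 0 := by
  have h1 := skew h.hψ x y
  have h2 := skew h.hD x y
  rw [hx.1, hy.1, mulVec_smul, smul_dotProduct, dotProduct_smul, smul_eq_mul, smul_eq_mul] at h1
  rw [hx.2, hy.2, mulVec_smul, smul_dotProduct, dotProduct_smul, smul_eq_mul, smul_eq_mul] at h2
  have e1 : (a + b) * (x ⬝ᵥ (O *ᵥ y)) = 0 := by linear_combination h1
  have e2 : (e + f) * (x ⬝ᵥ (O *ᵥ y)) = 0 := by linear_combination h2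
  rcases hne with h3 | h3
  · exact (mul_eq_zero.1 e1).resolve_left h3
  · exact (mul_eq_zero.1 e2).resolve_left h3

/-- A component. -/
theorem Dat.comp (h : Dat O ψ D l) (e : ℂ) (he : e * e = 1) (x : B → ℂ) :
    (x + l⁻¹ • (ψ *ᵥ x)) + e • (D *ᵥ (x + l⁻¹ • (ψ *ᵥ x))) ∈ ES ψ D l e := by
  have hψψ : ψ *ᵥ (ψ *ᵥ x) = (l * l) • x := by
    rw [mulVec_mulVec, h.sq, smul_mulVec, one_mulVec]
  have hDD : ∀ z : B → ℂ, D *ᵥ (D *ᵥ z) = z := by
    intro z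
    rw [mulVec_mulVec, h.hDD, one_mulVec]
  have hψD : ∀ z : B → ℂ, ψ *ᵥ (D *ᵥ z) = D *ᵥ (ψ *ᵥ z) := by
    intro z
    rw [mulVec_mulVec, h.com, ← mulVec_mulVec]
  obtain ⟨z, hz⟩ : ∃ z, z = x + l⁻¹ • (ψ *ᵥ x) := ⟨_, rfl⟩
  have hz1 : ψ *ᵥ z = l • z := by
    rw [hz, mulVec_add, mulVec_smul, hψψ, smul_add, smul_smul, smul_smul, mul_inv_cancel₀ h.hl,
      one_smul, add_comm, ← mul_assoc, inv_mul_cancel₀ h.hl, one_mul]
  rw [← hz]
  constructor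
  · rw [mulVec_add, mulVec_smul, hψD, hz1, mulVec_smul, smul_add, smul_comm]
  · rw [mulVec_add, mulVec_smul, hDD, smul_add, smul_smul, he, one_smul, add_comm]

/-- The decomposition. -/
theorem Dat.dec (h : Dat O ψ D l) (x : B → ℂ) : ∃ a ∈ ES ψ D l 1, ∃ b ∈ ES ψ D l (-1),
    ∃ c ∈ ES ψ D (-l) 1, ∃ d ∈ ES ψ D (-l) (-1), x = (a + b) + (c + d) := by
  refine ⟨_, Submodule.smul_mem _ (4 : ℂ)⁻¹ (h.comp 1 (by ring) x),
    _, Submodule.smul_mem _ (4 : ℂ)⁻¹ (h.comp (-1) (by ring) x),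
    _, Submodule.smul_mem _ (4 : ℂ)⁻¹ (h.neg.comp 1 (by ring) x),
    _, Submodule.smul_mem _ (4 : ℂ)⁻¹ (h.neg.comp (-1) (by ring) x), ?_⟩
  rw [inv_neg]
  module

/-- Uniqueness of the decomposition. -/
theorem Dat.uniq (h : Dat O ψ D l) {a b c d : B → ℂ} (ha : a ∈ ES ψ D l 1)
    (hb : b ∈ ES ψ D l (-1)) (hc : c ∈ ES ψ D (-l) 1) (hd : d ∈ ES ψ D (-l) (-1))
    (h0 : (a + b) + (c + d) = 0) : a = 0 ∧ b = 0 ∧ c = 0 ∧ d = 0 := by
  have hl2 : (2 : ℂ) * l ≠ 0 := mul_ne_zero two_ne_zero h.hl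
  have h1 : ψ *ᵥ ((a + b) + (c + d)) = 0 := by rw [h0, mulVec_zero]
  rw [mulVec_add, mulVec_add, mulVec_add, ha.1, hb.1, hc.1, hd.1] at h1
  have h2 : (2 * l) • (a + b) = 0 := by
    have h3 : (2 * l) • (a + b) = (l • a + l • b + ((-l) • c + (-l) • d)) +
        l • ((a + b) + (c + d)) := by module
    rw [h3, h1, h0, smul_zero, add_zero]
  have h3 : a + b = 0 := (smul_eq_zero.1 h2).resolve_left hl2
  have h4 : c + d = 0 := by rwa [h3, zero_add] at h0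
  have key : ∀ (k : ℂ) (y z : B → ℂ), y ∈ ES ψ D k 1 → z ∈ ES ψ D k (-1) → y + z = 0 →
      y = 0 ∧ z = 0 := by
    intro k y z hy hz hyz
    have h5 : D *ᵥ (y + z) = 0 := by rw [hyz, mulVec_zero]
    rw [mulVec_add, hy.2, hz.2] at h5
    have h6 : (2 : ℂ) • y = 0 := by
      have h7 : (2 : ℂ) • y = ((1 : ℂ) • y + (-1 : ℂ) • z) + (y + z) := by module
      rw [h7, h5, hyz, add_zero]
    have h7 : y = 0 := (smul_eq_zero.1 h6).resolve_left two_ne_zero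
    exact ⟨h7, by rwa [h7, zero_add] at hyz⟩
  obtain ⟨k1, k2⟩ := key l a b ha hb h3
  obtain ⟨k3, k4⟩ := key (-l) c d hc hd h4
  exact ⟨k1, k2, k3, k4⟩

/-- The sum of the dimensions. -/
theorem Dat.card (h : Dat O ψ D l) : (finrank ℂ (ES ψ D l 1) + finrank ℂ (ES ψ D l (-1))) +
    (finrank ℂ (ES ψ D (-l) 1) + finrank ℂ (ES ψ D (-l) (-1))) = Fintype.card B := by
  let F : ((ES ψ D l 1) × (ES ψ D l (-1))) × ((ES ψ D (-l) 1) × (ES ψ D (-l) (-1))) →ₗ[ℂ]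
      (B → ℂ) :=
    ((Submodule.subtype _).coprod (Submodule.subtype _)).coprod
      ((Submodule.subtype _).coprod (Submodule.subtype _))
  have hF : ∀ p, F p = ((p.1.1 : B → ℂ) + p.1.2) + ((p.2.1 : B → ℂ) + p.2.2) := fun p => rfl
  have hinj : Function.Injective F := by
    rw [injective_iff_map_eq_zero]
    rintro ⟨⟨a, b⟩, ⟨c, d⟩⟩ h0
    rw [hF] at h0
    obtain ⟨h1, h2, h3, h4⟩ := h.uniq a.2 b.2 c.2 d.2 h0
    refine Prod.ext (Prod.ext (Subtype.ext h1) (Subtype.ext h2))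
      (Prod.ext (Subtype.ext h3) (Subtype.ext h4))
  have hsur : Function.Surjective F := by
    intro x
    obtain ⟨a, ha, b, hb, c, hc, d, hd, hx⟩ := h.dec x
    exact ⟨((⟨a, ha⟩, ⟨b, hb⟩), (⟨c, hc⟩, ⟨d, hd⟩)), hx.symm⟩
  have h1 := (LinearEquiv.ofBijective F ⟨hinj, hsur⟩).finrank_eq
  rw [finrank_prod, finrank_prod, finrank_prod, finrank_fintype_fun_eq_card] at h1
  exact h1

/-- The pairing. -/
noncomputable def pr (O ψ D : Matrix B B ℂ) (l e : ℂ) :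
    ES ψ D (-l) (-e) →ₗ[ℂ] Dual ℂ (ES ψ D l e) where
  toFun y :=
    { toFun := fun x => (x : B → ℂ) ⬝ᵥ (O *ᵥ (y : B → ℂ))
      map_add' := fun x x' => by rw [Submodule.coe_add, add_dotProduct]
      map_smul' := fun c x => by
        rw [Submodule.coe_smul, smul_dotProduct, RingHom.id_apply] }
  map_add' y y' := by
    ext x
    change (x : B → ℂ) ⬝ᵥ (O *ᵥ ((y + y' : ES ψ D (-l) (-e)) : B → ℂ)) =
      (x : B → ℂ) ⬝ᵥ (O *ᵥ (y : B → ℂ)) + (x : B → ℂ) ⬝ᵥ (O *ᵥ (y' : B → ℂ))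
    rw [Submodule.coe_add, mulVec_add, dotProduct_add]
  map_smul' c y := by
    ext x
    change (x : B → ℂ) ⬝ᵥ (O *ᵥ ((c • y : ES ψ D (-l) (-e)) : B → ℂ)) =
      c • ((x : B → ℂ) ⬝ᵥ (O *ᵥ (y : B → ℂ)))
    rw [Submodule.coe_smul, mulVec_smul, dotProduct_smul]

theorem pr_apply (e : ℂ) (x : ES ψ D l e) (y : ES ψ D (-l) (-e)) :
    pr O ψ D l e y x = (x : B → ℂ) ⬝ᵥ (O *ᵥ (y : B → ℂ)) := rfl

theorem Dat.pr_inj (h : Dat O ψ D l) {e : ℂ} (he : e = 1 ∨ e = -1) :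
    Function.Injective (pr O ψ D l e) := by
  rw [injective_iff_map_eq_zero]
  intro y hy
  apply Subtype.ext
  have hl2 : l + l ≠ 0 := by
    rw [← two_mul]
    exact mul_ne_zero two_ne_zero h.hl
  have hl3 : (-l) + (-l) ≠ 0 := by
    intro h1
    apply hl2
    linear_combination -h1
  refine nd h.hOO fun x => ?_
  obtain ⟨a, ha, b, hb, c, hc, d, hd, hx⟩ := h.dec x
  have e3 : c ⬝ᵥ (O *ᵥ (y : B → ℂ)) = 0 := h.orth hc y.2 (Or.inl hl3)
  have e4 : d ⬝ᵥ (O *ᵥ (y : B → ℂ)) = 0 := h.orth hd y.2 (Or.inl hl3)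
  have e1 : a ⬝ᵥ (O *ᵥ (y : B → ℂ)) = 0 := by
    rcases he with he | he
    · subst he
      exact congrArg (fun f : Dual ℂ (ES ψ D l 1) => f ⟨a, ha⟩) hy
    · refine h.orth ha y.2 (Or.inr ?_)
      rw [he]
      norm_num
  have e2 : b ⬝ᵥ (O *ᵥ (y : B → ℂ)) = 0 := by
    rcases he with he | he
    · refine h.orth hb y.2 (Or.inr ?_)
      rw [he]
      norm_num
    · subst he
      exact congrArg (fun f : Dual ℂ (ES ψ D l (-1)) => f ⟨b, hb⟩) hy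
  rw [hx, add_dotProduct, add_dotProduct, add_dotProduct, e1, e2, e3, e4]
  ring

theorem Dat.finrank_le (h : Dat O ψ D l) {e : ℂ} (he : e = 1 ∨ e = -1) :
    finrank ℂ (ES ψ D (-l) (-e)) ≤ finrank ℂ (ES ψ D l e) := by
  have h1 := LinearMap.finrank_le_finrank_of_injective (h.pr_inj he)
  rwa [Subspace.dual_finrank_eq] at h1

theorem Dat.finrank_eq (h : Dat O ψ D l) {e : ℂ} (he : e = 1 ∨ e = -1) :
    finrank ℂ (ES ψ D (-l) (-e)) = finrank ℂ (ES ψ D l e) := by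
  apply le_antisymm (h.finrank_le he)
  have h1 := h.neg.finrank_le (e := -e) (by
    rcases he with he | he
    · right; rw [he]
    · left; rw [he, neg_neg])
  rwa [neg_neg, neg_neg] at h1

/-- The two dimensions. -/
theorem Dat.dims (h : Dat O ψ D l) :
    finrank ℂ (ES ψ D (-l) (-1)) = finrank ℂ (ES ψ D l 1) ∧
    finrank ℂ (ES ψ D (-l) 1) = finrank ℂ (ES ψ D l (-1)) ∧
    2 * (finrank ℂ (ES ψ D l 1) + finrank ℂ (ES ψ D l (-1))) = Fintype.card B := by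
  have h1 := h.finrank_eq (e := 1) (Or.inl rfl)
  have h2 := h.finrank_eq (e := -1) (Or.inr rfl)
  rw [neg_neg] at h2
  have h3 := h.card
  refine ⟨h1, h2, ?_⟩
  rw [h1, h2] at h3
  rw [← h3]
  ring

/-- If one of the eigenspaces is zero then `D` is a multiple of `ψ`. -/
theorem Dat.scalar (h : Dat O ψ D l)
    (h0 : finrank ℂ (ES ψ D l 1) = 0 ∨ finrank ℂ (ES ψ D l (-1)) = 0) :
    ∃ c : ℂ, D = c • ψ := by
  obtain ⟨h1, h2, -⟩ := h.dims
  have hz : ∀ (k e : ℂ), finrank ℂ (ES ψ D k e) = 0 → ∀ x ∈ ES ψ D k e, x = 0 := by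
    intro k e hk x hx
    rw [Submodule.finrank_eq_zero] at hk
    rwa [hk, Submodule.mem_bot] at hx
  have hext : ∀ A C : Matrix B B ℂ, (∀ x, A *ᵥ x = C *ᵥ x) → A = C := by
    intro A C hAC
    ext i j
    have h3 := congrFun (hAC (Pi.single j 1)) i
    rwa [mulVec_single_one, mulVec_single_one] at h3
  rcases h0 with h0 | h0
  · refine ⟨-l⁻¹, hext _ _ fun x => ?_⟩
    obtain ⟨a, ha, b, hb, c, hc, d, hd, hx⟩ := h.dec x
    have ha0 := hz _ _ h0 a ha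
    have hd0 := hz _ _ (h1.trans h0) d hd
    rw [hx, ha0, hd0, zero_add, add_zero, mulVec_add, smul_mulVec, mulVec_add, hb.1, hb.2, hc.1,
      hc.2, smul_add, smul_smul, smul_smul]
    have e1 : -l⁻¹ * l = -1 := by rw [neg_mul, inv_mul_cancel₀ h.hl]
    have e2 : -l⁻¹ * -l = 1 := by rw [neg_mul_neg, inv_mul_cancel₀ h.hl]
    rw [e1, e2]
  · refine ⟨l⁻¹, hext _ _ fun x => ?_⟩
    obtain ⟨a, ha, b, hb, c, hc, d, hd, hx⟩ := h.dec x
    have hb0 := hz _ _ h0 b hb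
    have hc0 := hz _ _ (h2.trans h0) c hc
    rw [hx, hb0, hc0, zero_add, add_zero, mulVec_add, smul_mulVec, mulVec_add, ha.1, ha.2, hd.1,
      hd.2, smul_add, smul_smul, smul_smul]
    have e1 : l⁻¹ * l = 1 := inv_mul_cancel₀ h.hl
    have e2 : l⁻¹ * -l = -1 := by rw [mul_neg, inv_mul_cancel₀ h.hl]
    rw [e1, e2]

/-- The functionals are given by vectors. -/
theorem Dat.exists_dual (h : Dat O ψ D l) {e : ℂ} (he : e = 1 ∨ e = -1)
    (f : Dual ℂ (ES ψ D l e)) : ∃ y ∈ ES ψ D (-l) (-e),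
      ∀ x, (hx : x ∈ ES ψ D l e) → x ⬝ᵥ (O *ᵥ y) = f ⟨x, hx⟩ := by
  have h1 : finrank ℂ (ES ψ D (-l) (-e)) = finrank ℂ (Dual ℂ (ES ψ D l e)) := by
    rw [Subspace.dual_finrank_eq, h.finrank_eq he]
  have h2 := (LinearMap.injective_iff_surjective_of_finrank_eq_finrank h1).1 (h.pr_inj he)
  obtain ⟨y, hy⟩ := h2 f
  refine ⟨y, y.2, fun x hx => ?_⟩
  rw [← hy]
  rfl

/-- The eigenbasis and the dual basis. -/
theorem Dat.basis (h : Dat O ψ D l) (ha : finrank ℂ (ES ψ D l 1) = 2)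
    (hb : finrank ℂ (ES ψ D l (-1)) = 1) : ∃ u v : Fin 3 → B → ℂ,
    (∀ k, ψ *ᵥ u k = l • u k) ∧ (∀ k, ψ *ᵥ v k = (-l) • v k) ∧
    (∀ k m, u k ⬝ᵥ (O *ᵥ v m) = if k = m then 1 else 0) ∧
    (∀ k, D *ᵥ u k = (if (k : ℕ) = 2 then (-1 : ℂ) else 1) • u k) ∧
    ∀ k, D *ᵥ v k = (if (k : ℕ) = 2 then (1 : ℂ) else -1) • v k := by
  let b := Module.finBasisOfFinrankEq ℂ (ES ψ D l 1) ha
  let b' := Module.finBasisOfFinrankEq ℂ (ES ψ D l (-1)) hb
  obtain ⟨v0, hv0, hv0'⟩ := h.exists_dual (Or.inl rfl) (b.coord 0)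
  obtain ⟨v1, hv1, hv1'⟩ := h.exists_dual (Or.inl rfl) (b.coord 1)
  obtain ⟨v2, hv2, hv2'⟩ := h.exists_dual (Or.inr rfl) (b'.coord 0)
  rw [neg_neg] at hv2
  have d00 : (b 0 : B → ℂ) ⬝ᵥ (O *ᵥ v0) = 1 := by
    rw [hv0' _ (b 0).2]
    simp
  have d10 : (b 1 : B → ℂ) ⬝ᵥ (O *ᵥ v0) = 0 := by
    rw [hv0' _ (b 1).2]
    simp
  have d01 : (b 0 : B → ℂ) ⬝ᵥ (O *ᵥ v1) = 0 := by
    rw [hv1' _ (b 0).2]
    simp
  have d11 : (b 1 : B → ℂ) ⬝ᵥ (O *ᵥ v1) = 1 := by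
    rw [hv1' _ (b 1).2]
    simp
  have d22 : (b' 0 : B → ℂ) ⬝ᵥ (O *ᵥ v2) = 1 := by
    rw [hv2' _ (b' 0).2]
    simp
  have d02 : (b 0 : B → ℂ) ⬝ᵥ (O *ᵥ v2) = 0 :=
    h.orth (b 0).2 hv2 (Or.inr (by norm_num))
  have d12 : (b 1 : B → ℂ) ⬝ᵥ (O *ᵥ v2) = 0 :=
    h.orth (b 1).2 hv2 (Or.inr (by norm_num))
  have d20 : (b' 0 : B → ℂ) ⬝ᵥ (O *ᵥ v0) = 0 :=
    h.orth (b' 0).2 hv0 (Or.inr (by norm_num))
  have d21 : (b' 0 : B → ℂ) ⬝ᵥ (O *ᵥ v1) = 0 :=
    h.orth (b' 0).2 hv1 (Or.inr (by norm_num))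
  refine ⟨![b 0, b 1, b' 0], ![v0, v1, v2], ?_, ?_, ?_, ?_, ?_⟩
  · intro k
    fin_cases k
    · exact (b 0).2.1
    · exact (b 1).2.1
    · exact (b' 0).2.1
  · intro k
    fin_cases k
    · exact hv0.1
    · exact hv1.1
    · exact hv2.1
  · intro k m
    fin_cases k <;> fin_cases m
    · exact d00
    · exact d01
    · exact d02
    · exact d10
    · exact d11
    · exact d12
    · exact d20
    · exact d21
    · exact d22
  · intro k
    fin_cases k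
    · exact (b 0).2.2
    · exact (b 1).2.2
    · exact (b' 0).2.2
  · intro k
    fin_cases k
    · exact hv0.2
    · exact hv1.2
    · exact hv2.2

/-- The exterior product of two vectors as an operator. -/
def WW (O : Matrix B B ℂ) (x y : B → ℂ) : Matrix B B ℂ := (vecMulVec x y - vecMulVec y x) * O

theorem WW_add_left (x x' y : B → ℂ) : WW O (x + x') y = WW O x y + WW O x' y := by
  unfold WW
  rw [add_vecMulVec, vecMulVec_add, ← add_mul]
  congr 1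
  abel

theorem WW_add_right (x y y' : B → ℂ) : WW O x (y + y') = WW O x y + WW O x y' := by
  unfold WW
  rw [add_vecMulVec, vecMulVec_add, ← add_mul]
  congr 1
  abel

theorem WW_smul_left (c : ℂ) (x y : B → ℂ) : WW O (c • x) y = c • WW O x y := by
  unfold WW
  rw [smul_vecMulVec, vecMulVec_smul, ← smul_sub, smul_mul_assoc]

theorem WW_smul_right (c : ℂ) (x y : B → ℂ) : WW O x (c • y) = c • WW O x y := by
  unfold WW
  rw [smul_vecMulVec, vecMulVec_smul, ← smul_sub, smul_mul_assoc]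

theorem WW_self (x : B → ℂ) : WW O x x = 0 := by
  unfold WW
  rw [sub_self, zero_mul]

theorem WW_swap (x y : B → ℂ) : WW O y x = -WW O x y := by
  unfold WW
  rw [← neg_sub, neg_mul]

theorem WW_bracket {X : Matrix B B ℂ} (hX : Xᵀ * O = -(O * X)) (x y : B → ℂ) :
    X * WW O x y - WW O x y * X = WW O (X *ᵥ x) y + WW O x (X *ᵥ y) := by
  unfold WW
  have h1 : O * X = -(Xᵀ * O) := by rw [hX, neg_neg]
  rw [mul_assoc (vecMulVec x y - vecMulVec y x) O X, h1, ← mul_assoc, mul_neg, ← mul_assoc,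
    sub_neg_eq_add, ← add_mul, ← add_mul]
  congr 1
  rw [mul_sub, sub_mul, mul_vecMulVec, mul_vecMulVec, vecMulVec_mul, vecMulVec_mul,
    vecMul_transpose, vecMul_transpose]
  abel

/-- If the two eigenspaces are lines, then `D` commutes with the exterior product. -/
theorem Dat.comm_WW (h : Dat O ψ D l) (ha : finrank ℂ (ES ψ D l 1) = 1)
    (hb : finrank ℂ (ES ψ D l (-1)) = 1) {x y : B → ℂ} (hx : ψ *ᵥ x = l • x)
    (hy : ψ *ᵥ y = l • y) : D * WW O x y = WW O x y * D := by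
  obtain ⟨a, -, ha'⟩ := finrank_eq_one_iff'.1 ha
  obtain ⟨b, -, hb'⟩ := finrank_eq_one_iff'.1 hb
  have hl2 : (2 : ℂ) * l ≠ 0 := mul_ne_zero two_ne_zero h.hl
  have key : ∀ z : B → ℂ, ψ *ᵥ z = l • z → ∃ p q : ℂ, z = p • (a : B → ℂ) + q • (b : B → ℂ) := by
    intro z hz
    obtain ⟨a1, ha1, b1, hb1, c, hc, d, hd, hz1⟩ := h.dec z
    have h1 : c + d = 0 := by
      have h2 := hz
      rw [hz1, mulVec_add, mulVec_add, mulVec_add, ha1.1, hb1.1, hc.1, hd.1] at h2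
      have h3 : (2 * l) • (c + d) = l • ((a1 + b1) + (c + d)) -
          (l • a1 + l • b1 + ((-l) • c + (-l) • d)) := by module
      rw [← h2, sub_self] at h3
      exact (smul_eq_zero.1 h3).resolve_left hl2
    rw [h1, add_zero] at hz1
    obtain ⟨p, hp⟩ := ha' ⟨a1, ha1⟩
    obtain ⟨q, hq⟩ := hb' ⟨b1, hb1⟩
    refine ⟨p, q, ?_⟩
    have hp' : p • (a : B → ℂ) = a1 := congrArg Subtype.val hp
    have hq' : q • (b : B → ℂ) = b1 := congrArg Subtype.val hq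
    rw [hz1, hp', hq']
  obtain ⟨p, q, hx1⟩ := key x hx
  obtain ⟨p', q', hy1⟩ := key y hy
  have h1 : WW O x y = (p * q' - q * p') • WW O (a : B → ℂ) (b : B → ℂ) := by
    rw [hx1, hy1, WW_add_left, WW_add_right, WW_add_right, WW_smul_left, WW_smul_left,
      WW_smul_left, WW_smul_left, WW_smul_right, WW_smul_right, WW_smul_right, WW_smul_right,
      WW_self, WW_self, WW_swap (a : B → ℂ) (b : B → ℂ)]
    module
  have h2 := WW_bracket h.hD (a : B → ℂ) (b : B → ℂ)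
  rw [a.2.2, b.2.2, WW_smul_left, WW_smul_right, one_smul, neg_one_smul, add_neg_cancel] at h2
  rw [h1, mul_smul_comm, smul_mul_assoc, sub_eq_zero.1 h2]

/-- The exterior product of eigenvectors does not commute with `ψ`. -/
theorem Dat.not_comm (h : Dat O ψ D l) {x y : B → ℂ} (hx : x ∈ ES ψ D l 1)
    (hy : y ∈ ES ψ D l (-1)) (hc : ψ * WW O x y = WW O x y * ψ) : x = 0 ∨ y = 0 := by
  have h1 := WW_bracket h.hψ x y
  rw [hc, sub_self, hx.1, hy.1, WW_smul_left, WW_smul_right, ← add_smul, ← two_mul] at h1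
  have h2 : WW O x y = 0 :=
    (smul_eq_zero.1 h1.symm).resolve_left (mul_ne_zero two_ne_zero h.hl)
  have h3 : vecMulVec x y - vecMulVec y x = 0 := by
    have h4 : WW O x y * O = -(vecMulVec x y - vecMulVec y x) := by
      unfold WW
      rw [mul_assoc, h.hOO, mul_neg_one]
    rw [h2, zero_mul] at h4
    exact neg_eq_zero.1 h4.symm
  have h4 : D * (vecMulVec x y - vecMulVec y x) = vecMulVec x y + vecMulVec y x := by
    rw [mul_sub, mul_vecMulVec, mul_vecMulVec, hx.2, hy.2, one_smul, neg_one_smul,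
      neg_vecMulVec, sub_neg_eq_add]
  rw [h3, mul_zero] at h4
  have h5 : vecMulVec x y = 0 := by
    have h6 : (2 : ℂ) • vecMulVec x y = (vecMulVec x y - vecMulVec y x) +
        (vecMulVec x y + vecMulVec y x) := by module
    rw [h3, ← h4, add_zero] at h6
    exact (smul_eq_zero.1 h6).resolve_left two_ne_zero
  by_contra hne
  push Not at hne
  obtain ⟨i, hi⟩ := Function.ne_iff.1 hne.1
  obtain ⟨j, hj⟩ := Function.ne_iff.1 hne.2
  have h6 := congrFun (congrFun h5 i) j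
  rw [vecMulVec_apply, Matrix.zero_apply] at h6
  rcases mul_eq_zero.1 h6 with h7 | h7
  · exact hi h7
  · exact hj h7

end Pool.Agent.Q6.D3
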