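import Mathlib
import Pool.Agent.Q60.D3.Stm2
import Pool.Agent.TH125.RankIn
import Pool.Agent.Q6.D3.Lin

/-!
# JOB TRI: the trichotomy
-/

set_option linter.unusedSectionVars false
set_option maxHeartbeats 400000

namespace Pool.Agent.Q6.D3

open Matrix Module Pool.Agent.H204R3.CM Pool.Agent.H194R3.CM Pool.Agent.W437.HC
  Pool.Agent.W437.HD Pool.Agent.W437.HP Pool.Agent.W437.HQ Pool.Agent.W437.HR
  Pool.Agent.W548.Odd Pool.Agent.TH125 Pool.Agent.Q60.D3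

/-- The eigenspace. -/
def EV {B : Type*} [Fintype B] (A : Matrix B B ℂ) (k : ℂ) : Submodule ℂ (B → ℂ) where
  carrier := {x | A *ᵥ x = k • x}
  zero_mem' := by
    change A *ᵥ (0 : B → ℂ) = k • (0 : B → ℂ)
    rw [mulVec_zero, smul_zero]
  add_mem' := by
    intro x y hx hy
    change A *ᵥ (x + y) = k • (x + y)
    have hx' : A *ᵥ x = k • x := hx
    have hy' : A *ᵥ y = k • y := hy
    rw [mulVec_add, hx', hy', smul_add]
  smul_mem' := by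
    intro c x hx
    change A *ᵥ (c • x) = k • (c • x)
    have hx' : A *ᵥ x = k • x := hx
    rw [mulVec_smul, hx', smul_comm]

theorem mem_EV {B : Type*} [Fintype B] {A : Matrix B B ℂ} {k : ℂ} {x : B → ℂ} :
    x ∈ EV A k ↔ A *ᵥ x = k • x := Iff.rfl

/-- The negative of an eigenvalue of a skew operator is an eigenvalue. -/
theorem neg_eig {B : Type*} [Fintype B] [DecidableEq B] {O A : Matrix B B ℂ} (hOO : O * O = -1)
    (hA : Aᵀ * O = -(O * A)) {k : ℂ} {x : B → ℂ} (hx : A *ᵥ x = k • x) (hx0 : x ≠ 0) :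
    ∃ y : B → ℂ, y ≠ 0 ∧ A *ᵥ y = (-k) • y := by
  have h1 : (A - k • (1 : Matrix B B ℂ)).det = 0 := by
    rw [← Matrix.exists_mulVec_eq_zero_iff]
    exact ⟨x, hx0, by rw [sub_mulVec, hx, smul_mulVec, one_mulVec, sub_self]⟩
  have h2 : (A - k • (1 : Matrix B B ℂ))ᵀ = O * (A + k • (1 : Matrix B B ℂ)) * O := by
    have h3 : Aᵀ = O * A * O := by
      have h4 : Aᵀ * O * O = -(O * A) * O := by rw [hA]
      rw [mul_assoc, hOO, mul_neg_one, neg_mul] at h4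
      exact neg_injective h4
    rw [transpose_sub, transpose_smul, transpose_one, h3, mul_add, add_mul, mul_smul_comm,
      mul_one, smul_mul_assoc, hOO, smul_neg, sub_eq_add_neg]
  have h3 : (A + k • (1 : Matrix B B ℂ)).det = 0 := by
    have h4 := congrArg det h2
    rw [det_transpose, h1, det_mul, det_mul] at h4
    have h5 : O.det * O.det ≠ 0 := by
      rw [← det_mul, hOO, det_neg, det_one, mul_one]
      exact pow_ne_zero _ (by norm_num)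
    have h6 : (O.det * O.det) * (A + k • (1 : Matrix B B ℂ)).det = 0 := by
      linear_combination -h4
    exact (mul_eq_zero.1 h6).resolve_left h5
  obtain ⟨y, hy0, hy⟩ := Matrix.exists_mulVec_eq_zero_iff.2 h3
  refine ⟨y, hy0, ?_⟩
  rw [add_mulVec, smul_mulVec, one_mulVec] at hy
  rw [neg_smul]
  exact eq_neg_of_add_eq_zero_left hy

variable {g : ℕ} {Z : Matrix (Fin g) (Fin g) ℂ}

/-- There are no common eigenvectors. -/
def NoE (Z : Matrix (Fin g) (Fin g) ℂ) : Prop :=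
  ∀ v : Fin g ⊕ Fin g → ℂ, (∀ σ : ℂ ≃+* ℂ, ∃ c : ℂ, (DZ Z).map σ *ᵥ v = c • v) → v = 0

theorem two_le (hn : NoE Z) {A : Matrix (Fin g ⊕ Fin g) (Fin g ⊕ Fin g) ℂ}
    (hA : ∀ σ : ℂ ≃+* ℂ, A * (DZ Z).map σ = (DZ Z).map σ * A)
    {k : ℂ} {x : Fin g ⊕ Fin g → ℂ} (hx : A *ᵥ x = k • x) (hx0 : x ≠ 0) :
    2 ≤ finrank ℂ (EV A k) := by
  by_contra hcon
  have h1 : finrank ℂ (EV A k) ≤ 1 := by omega
  obtain ⟨v, hv⟩ := finrank_le_one_iff.1 h1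
  have h2 : (v : Fin g ⊕ Fin g → ℂ) = 0 := by
    refine hn _ fun σ => ?_
    have h3 : (DZ Z).map σ *ᵥ (v : Fin g ⊕ Fin g → ℂ) ∈ EV A k := by
      rw [mem_EV, mulVec_mulVec, hA, ← mulVec_mulVec, mem_EV.1 v.2, mulVec_smul]
    obtain ⟨c, hc⟩ := hv ⟨_, h3⟩
    exact ⟨c, (congrArg Subtype.val hc).symm⟩
  obtain ⟨c, hc⟩ := hv ⟨x, hx⟩
  apply hx0
  have h3 : c • (v : Fin g ⊕ Fin g → ℂ) = x := congrArg Subtype.val hc
  rw [← h3, h2, smul_zero]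

theorem four_le (hn : NoE Z) {A : Matrix (Fin g ⊕ Fin g) (Fin g ⊕ Fin g) ℂ}
    (hA : ∀ σ : ℂ ≃+* ℂ, A * (DZ Z).map σ = (DZ Z).map σ * A)
    (hsk : Aᵀ * Om g ℂ = -(Om g ℂ * A)) {k : ℂ} (hk : k ≠ 0) {x : Fin g ⊕ Fin g → ℂ}
    (hx : A *ᵥ x = k • x) (hx0 : x ≠ 0) : 4 ≤ finrank ℂ (EV (A * A) (k * k)) := by
  obtain ⟨y, hy0, hy⟩ := neg_eig (Om_sq ℂ) hsk hx hx0
  have h1 := two_le hn hA hx hx0
  have h2 := two_le hn hA hy hy0
  have h3 : EV A k ⊔ EV A (-k) ≤ EV (A * A) (k * k) := by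
    refine sup_le (fun z hz => ?_) (fun z hz => ?_)
    · rw [mem_EV] at hz ⊢
      rw [← mulVec_mulVec, hz, mulVec_smul, hz, smul_smul]
    · rw [mem_EV] at hz ⊢
      rw [← mulVec_mulVec, hz, mulVec_smul, hz, smul_smul, neg_mul_neg]
  have h4 : EV A k ⊓ EV A (-k) = ⊥ := by
    rw [Submodule.eq_bot_iff]
    rintro z ⟨hz1, hz2⟩
    have hz1' : A *ᵥ z = k • z := hz1
    have hz2' : A *ᵥ z = (-k) • z := hz2
    have h5 : (2 * k) • z = 0 := by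
      have h6 : (2 * k) • z = k • z - (-k) • z := by module
      rw [h6, ← hz1', ← hz2', sub_self]
    exact (smul_eq_zero.1 h5).resolve_left (mul_ne_zero two_ne_zero hk)
  have h5 := Submodule.finrank_sup_add_finrank_inf_eq (EV A k) (EV A (-k))
  rw [h4, finrank_bot, add_zero] at h5
  have h6 := Submodule.finrank_mono h3
  omega

theorem EV_conj (σ : ℂ ≃+* ℂ) {ρ : Matrix (Fin g ⊕ Fin g) (Fin g ⊕ Fin g) ℚ} {k : ℂ}
    {v : Fin g ⊕ Fin g → ℂ} (hv : cq ρ *ᵥ v = k • v) :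
    cq ρ *ᵥ (fun i => σ (v i)) = σ k • fun i => σ (v i) := by
  have h2 : cq ρ *ᵥ (fun i => σ (v i)) = fun i => σ ((cq ρ *ᵥ v) i) := by
    funext i
    simp [mulVec, dotProduct, cq]
  rw [h2, hv]
  funext i
  simp

theorem EV_top (hY : IsUnit (imM Z).det) (hs : IsSimpleAV Z)
    {ρ : Matrix (Fin g ⊕ Fin g) (Fin g ⊕ Fin g) ℚ} (hD : cq ρ * DZ Z = DZ Z * cq ρ) {k : ℂ}
    (hk : ∀ σ : ℂ ≃+* ℂ, σ k = k) {x : Fin g ⊕ Fin g → ℂ} (hx : cq ρ *ᵥ x = k • x)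
    (hx0 : x ≠ 0) : EV (cq ρ) k = ⊤ := by
  refine stable_eq_top hY hs _ ?_ ?_ ?_
  · intro σ v hv
    have h1 := EV_conj σ (mem_EV.1 hv)
    rw [hk σ] at h1
    exact h1
  · intro v hv
    rw [mem_EV] at hv ⊢
    rw [mulVec_mulVec, hD, ← mulVec_mulVec, hv, mulVec_smul]
  · intro h
    apply hx0
    have h1 : x ∈ EV (cq ρ) k := hx
    rw [h] at h1
    exact (Submodule.mem_bot ℂ).1 h1

/-- Conjugates of the Hodge operator commute with the endomorphisms. -/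
theorem comm_conj {ψ : Matrix (Fin g ⊕ Fin g) (Fin g ⊕ Fin g) ℚ}
    (hD : cq ψ * DZ Z = DZ Z * cq ψ) (σ : ℂ ≃+* ℂ) :
    cq ψ * (DZ Z).map σ = (DZ Z).map σ * cq ψ := by
  have h1 := congrArg (fun Y : Matrix _ _ ℂ => Y.map (σ : ℂ →+* ℂ)) hD
  simp only [Matrix.map_mul] at h1
  have h2 : (cq ψ).map (σ : ℂ →+* ℂ) = cq ψ := by
    ext i j
    simp [cq]
  rw [h2] at h1
  exact h1

/-- The square of a skew endomorphism is a scalar. -/
theorem sq_scalar (hY : IsUnit (imM Z).det) (hs : IsSimpleAV Z) (hg : g ≤ 3) (hn : NoE Z)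
    [Nonempty (Fin g)] {ψ : Matrix (Fin g ⊕ Fin g) (Fin g ⊕ Fin g) ℚ} (h0 : ψ ≠ 0)
    (hsk : (cq ψ)ᵀ * Om g ℂ = -(Om g ℂ * cq ψ)) (hD : cq ψ * DZ Z = DZ Z * cq ψ) :
    ∃ l : ℂ, l ≠ 0 ∧ cq ψ * cq ψ = (l * l) • (1 : Matrix (Fin g ⊕ Fin g) (Fin g ⊕ Fin g) ℂ) := by
  have hA := comm_conj hD
  obtain ⟨l, hl⟩ := Module.End.exists_eigenvalue (Matrix.toLin' (cq ψ))
  obtain ⟨x, hx⟩ := hl.exists_hasEigenvector
  have hx0 : x ≠ 0 := hx.2
  have hx1 : cq ψ *ᵥ x = l • x := by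
    have h1 := hx.apply_eq_smul
    rwa [Matrix.toLin'_apply] at h1
  have hl0 : l ≠ 0 := by
    rintro rfl
    have h1 := EV_top hY hs hD (fun σ => map_zero σ) hx1 hx0
    apply h0
    apply cq_inj
    apply mulVec_ext
    intro b
    have h2 : b ∈ EV (cq ψ) 0 := by
      rw [h1]
      trivial
    rw [mem_EV, zero_smul] at h2
    rw [h2]
    have h3 : cq (0 : Matrix (Fin g ⊕ Fin g) (Fin g ⊕ Fin g) ℚ) = 0 := by
      ext i j
      simp [cq]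
    rw [h3, zero_mulVec]
  refine ⟨l, hl0, ?_⟩
  have hx2 : cq (ψ * ψ) *ᵥ x = (l * l) • x := by
    rw [cq_mul, ← mulVec_mulVec, hx1, mulVec_smul, hx1, smul_smul]
  have hD2 : cq (ψ * ψ) * DZ Z = DZ Z * cq (ψ * ψ) := by
    rw [cq_mul, mul_assoc, hD, ← mul_assoc, hD, mul_assoc]
  have hk : ∀ σ : ℂ ≃+* ℂ, σ (l * l) = l * l := by
    intro σ
    by_contra hne
    have h1 := four_le hn hA hsk hl0 hx1 hx0
    have hy0 : (fun i => σ (x i)) ≠ 0 := by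
      intro h
      apply hx0
      funext i
      have h2 := congrFun h i
      exact (map_eq_zero_iff σ σ.injective).1 h2
    have h2 := four_le hn hA hsk ((map_ne_zero_iff σ σ.injective).2 hl0) (EV_conj σ hx1) hy0
    rw [← map_mul] at h2
    have h3 : EV (cq ψ * cq ψ) (l * l) ⊓ EV (cq ψ * cq ψ) (σ (l * l)) = ⊥ := by
      rw [Submodule.eq_bot_iff]
      rintro z ⟨hz1, hz2⟩
      have hz1' : (cq ψ * cq ψ) *ᵥ z = (l * l) • z := hz1
      have hz2' : (cq ψ * cq ψ) *ᵥ z = (σ (l * l)) • z := hz2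
      have h5 : (l * l - σ (l * l)) • z = 0 := by
        rw [sub_smul, ← hz1', ← hz2', sub_self]
      exact (smul_eq_zero.1 h5).resolve_left (sub_ne_zero.2 (Ne.symm hne))
    have h5 := Submodule.finrank_sup_add_finrank_inf_eq (EV (cq ψ * cq ψ) (l * l))
      (EV (cq ψ * cq ψ) (σ (l * l)))
    rw [h3, finrank_bot, add_zero] at h5
    have h6 := Submodule.finrank_le (EV (cq ψ * cq ψ) (l * l) ⊔ EV (cq ψ * cq ψ) (σ (l * l)))
    rw [finrank_fintype_fun_eq_card, Fintype.card_sum, Fintype.card_fin] at h6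
    omega
  have h1 := EV_top hY hs hD2 hk hx2 hx0
  rw [cq_mul] at h1
  apply mulVec_ext
  intro b
  have h2 : b ∈ EV (cq ψ * cq ψ) (l * l) := by
    rw [h1]
    trivial
  rw [mem_EV] at h2
  rw [h2, smul_mulVec, one_mulVec]

/-- Positivity. -/
theorem sq_neg (hZ : Zᵀ = Z) (hpos : (imM Z).PosDef) [Nonempty (Fin g)]
    {φ : Matrix (Fin g ⊕ Fin g) (Fin g ⊕ Fin g) ℚ} {l : ℂ} (hl : l ≠ 0)
    (hsk : (cq φ)ᵀ * Om g ℂ = -(Om g ℂ * cq φ)) (hD : cq φ * DZ Z = DZ Z * cq φ)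
    (h1 : cq φ * cq φ = (l * l) • (1 : Matrix (Fin g ⊕ Fin g) (Fin g ⊕ Fin g) ℂ)) :
    ∃ d : ℚ, 0 < d ∧ l * l = -(d : ℂ) ∧
      φ * φ = -(d • (1 : Matrix (Fin g ⊕ Fin g) (Fin g ⊕ Fin g) ℚ)) := by
  obtain ⟨i0⟩ := (inferInstance : Nonempty (Fin g))
  rw [← cq_mul] at h1
  obtain ⟨r, hr⟩ : ∃ r, r = (φ * φ) (Sum.inl i0) (Sum.inl i0) := ⟨_, rfl⟩
  have hrc : ((r : ℚ) : ℂ) = l * l := by
    have h2 := congrFun (congrFun h1 (Sum.inl i0)) (Sum.inl i0)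
    rw [Matrix.smul_apply, Matrix.one_apply_eq, smul_eq_mul, mul_one] at h2
    rw [← h2, hr]
    rfl
  have hφφ : φ * φ = r • (1 : Matrix (Fin g ⊕ Fin g) (Fin g ⊕ Fin g) ℚ) := by
    apply cq_inj
    rw [h1, ← hrc]
    ext i j
    rw [Matrix.smul_apply]
    unfold cq
    rw [Matrix.map_apply, Matrix.smul_apply, smul_eq_mul, smul_eq_mul, Rat.cast_mul]
    congr 1
    by_cases hij : i = j
    · subst hij
      simp
    · simp [Matrix.one_apply_ne hij]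
  have hr0 : r ≠ 0 := by
    rintro rfl
    rw [Rat.cast_zero] at hrc
    exact mul_ne_zero hl hl hrc.symm
  -- the real matrix
  obtain ⟨φR, hφR⟩ : ∃ φR : Matrix (Fin g ⊕ Fin g) (Fin g ⊕ Fin g) ℝ,
      φR = φ.map (fun x : ℚ => (x : ℝ)) := ⟨_, rfl⟩
  have hcm : cm φR = cq φ := by
    rw [hφR]
    ext i j
    simp [cm, cq]
  have hcmi : ∀ A B : Matrix (Fin g ⊕ Fin g) (Fin g ⊕ Fin g) ℝ, cm A = cm B → A = B := by
    intro A B h
    ext i j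
    have h2 : ((A i j : ℝ) : ℂ) = ((B i j : ℝ) : ℂ) := congrFun (congrFun h i) j
    exact_mod_cast h2
  have hRR : φR * φR = (r : ℝ) • (1 : Matrix (Fin g ⊕ Fin g) (Fin g ⊕ Fin g) ℝ) := by
    apply hcmi
    rw [cm_mul, hcm, ← cq_mul, h1, ← hrc]
    ext i j
    simp only [cm, Matrix.one_apply, Matrix.smul_apply, Matrix.map_apply, smul_eq_mul, mul_ite,
      mul_one, mul_zero]
    split_ifs <;> simp
  have hJD : cm (JR Z) = Complex.I • DZ Z := by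
    change _ = Complex.I • ((-Complex.I) • cm (JR Z))
    rw [smul_smul, show Complex.I * -Complex.I = 1 by simp, one_smul]
  have hJ : φR * JR Z = JR Z * φR := by
    apply hcmi
    rw [cm_mul, cm_mul, hcm, hJD, Matrix.smul_mul, Matrix.mul_smul, hD]
  have hs : φRᵀ * Om g ℝ = -(Om g ℝ * φR) := by
    apply hcmi
    rw [cm_neg, cm_mul, cm_mul, cm_Om]
    have h2 : cm φRᵀ = (cm φR)ᵀ := by
      unfold cm
      rw [transpose_map]
    rw [h2, hcm, hsk]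
  have hH := OmJ_posDef hZ hpos
  obtain ⟨x, hx⟩ : ∃ x : Fin g ⊕ Fin g → ℝ, x ≠ 0 := ⟨Pi.single (Sum.inl i0) 1, fun h => by
    have h2 := congrFun h (Sum.inl i0)
    rw [Pi.single_eq_same] at h2
    exact one_ne_zero h2⟩
  have hφx : φR *ᵥ x ≠ 0 := by
    intro h
    have h2 : φR *ᵥ (φR *ᵥ x) = (r : ℝ) • x := by
      rw [mulVec_mulVec, hRR, smul_mulVec, one_mulVec]
    rw [h, mulVec_zero] at h2
    rcases smul_eq_zero.1 h2.symm with h3 | h3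
    · exact hr0 (by exact_mod_cast h3)
    · exact hx h3
  have e1 := hH.dotProduct_mulVec_pos hx
  have e2 := hH.dotProduct_mulVec_pos hφx
  rw [star_trivial] at e1 e2
  have e3 : (φR *ᵥ x) ⬝ᵥ ((Om g ℝ * JR Z) *ᵥ (φR *ᵥ x)) =
      -(r : ℝ) * (x ⬝ᵥ ((Om g ℝ * JR Z) *ᵥ x)) := by
    have e4 : (φR *ᵥ x) ⬝ᵥ ((Om g ℝ * JR Z) *ᵥ (φR *ᵥ x)) =
        x ⬝ᵥ ((φRᵀ * (Om g ℝ * JR Z * φR)) *ᵥ x) := by
      rw [mulVec_mulVec, ← mulVec_mulVec x φRᵀ, dotProduct_mulVec x φRᵀ, vecMul_transpose]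
    have e5 : φRᵀ * (Om g ℝ * JR Z * φR) = -(r : ℝ) • (Om g ℝ * JR Z) := by
      have e6 : φRᵀ * (Om g ℝ * JR Z * φR) = (φRᵀ * Om g ℝ) * (JR Z * φR) := by
        simp only [Matrix.mul_assoc]
      have e7 : Om g ℝ * φR * (φR * JR Z) = Om g ℝ * (φR * φR) * JR Z := by
        simp only [Matrix.mul_assoc]
      rw [e6, hs, ← hJ, Matrix.neg_mul, e7, hRR, Matrix.mul_smul, Matrix.mul_one,
        Matrix.smul_mul, neg_smul]
    rw [e4, e5, smul_mulVec, dotProduct_smul, smul_eq_mul]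
  rw [e3] at e2
  have e4 : (r : ℝ) < 0 := by nlinarith
  refine ⟨-r, ?_, ?_, ?_⟩
  · have e5 : r < 0 := by exact_mod_cast e4
    linarith
  · rw [← hrc, Rat.cast_neg, neg_neg]
  · rw [hφφ, neg_smul, neg_neg]

/-- A positive rational number is a squarefree integer up to squares. -/
theorem exists_sqfree (r : ℚ) (hr : 0 < r) :
    ∃ (t : ℚ) (d : ℕ), t ≠ 0 ∧ Squarefree d ∧ t * t * r = d := by
  have hnum : 0 < r.num := Rat.num_pos.2 hr
  obtain ⟨m, hm⟩ : ∃ m : ℕ, (m : ℤ) = r.num := ⟨r.num.toNat, Int.toNat_of_nonneg hnum.le⟩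
  have hm0 : m ≠ 0 := by
    rintro rfl
    rw [← hm] at hnum
    simp at hnum
  have hden : r.den ≠ 0 := r.den_nz
  obtain ⟨a, b, h, ha⟩ := Nat.sq_mul_squarefree (m * r.den)
  have hb : b ≠ 0 := by
    rintro rfl
    rw [zero_pow two_ne_zero, zero_mul] at h
    exact mul_ne_zero hm0 hden h.symm
  have hbq : (b : ℚ) ≠ 0 := by exact_mod_cast hb
  have hdq : (r.den : ℚ) ≠ 0 := by exact_mod_cast hden
  refine ⟨(r.den : ℚ) / b, a, div_ne_zero hdq hbq, ha, ?_⟩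
  have hrq : r = (m : ℚ) / r.den := by
    have h1 := Rat.num_div_den r
    rw [← hm, Int.cast_natCast] at h1
    exact h1.symm
  have h2 : (b : ℚ) ^ 2 * a = m * r.den := by exact_mod_cast h
  obtain ⟨q, hq⟩ : ∃ q : ℚ, q = (r.den : ℚ) := ⟨_, rfl⟩
  rw [← hq] at h2 hrq hdq ⊢
  rw [hrq]
  field_simp
  linear_combination -h2

/-- The Rosati adjoint. -/
def ad (u : Matrix (Fin g ⊕ Fin g) (Fin g ⊕ Fin g) ℚ) :
    Matrix (Fin g ⊕ Fin g) (Fin g ⊕ Fin g) ℚ := -(Om g ℚ * uᵀ * Om g ℚ)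

theorem ad_spec (u : Matrix (Fin g ⊕ Fin g) (Fin g ⊕ Fin g) ℚ) :
    (ad u)ᵀ * Om g ℚ = Om g ℚ * u := by
  unfold ad
  rw [transpose_neg, transpose_mul, transpose_mul, transpose_transpose, Om_transpose]
  calc -(-Om g ℚ * (u * -Om g ℚ)) * Om g ℚ = -(Om g ℚ * u * (Om g ℚ * Om g ℚ)) := by
        noncomm_ring
  _ = Om g ℚ * u := by rw [Om_sq]; noncomm_ring

theorem Om_ad (u : Matrix (Fin g ⊕ Fin g) (Fin g ⊕ Fin g) ℚ) :
    Om g ℚ * ad u = uᵀ * Om g ℚ := by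
  unfold ad
  rw [mul_neg, ← mul_assoc, ← mul_assoc, Om_sq, neg_one_mul, neg_mul, neg_neg]

theorem Om_cancel {A C : Matrix (Fin g ⊕ Fin g) (Fin g ⊕ Fin g) ℚ}
    (h : Om g ℚ * A = Om g ℚ * C) : A = C := by
  have h1 : Om g ℚ * (Om g ℚ * A) = Om g ℚ * (Om g ℚ * C) := by rw [h]
  rw [← mul_assoc, ← mul_assoc, Om_sq, neg_one_mul, neg_one_mul] at h1
  exact neg_injective h1

theorem ad_ad (u : Matrix (Fin g ⊕ Fin g) (Fin g ⊕ Fin g) ℚ) : ad (ad u) = u := by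
  apply Om_cancel
  rw [Om_ad, ad_spec]

theorem ad_mul (u v : Matrix (Fin g ⊕ Fin g) (Fin g ⊕ Fin g) ℚ) :
    ad (u * v) = ad v * ad u := by
  apply Om_cancel
  rw [Om_ad, transpose_mul, ← mul_assoc, Om_ad, mul_assoc, ← Om_ad, ← mul_assoc]

theorem cq_Om : cq (Om g ℚ) = Om g ℂ := Om_map ℂ

theorem cq_neg (u : Matrix (Fin g ⊕ Fin g) (Fin g ⊕ Fin g) ℚ) : cq (-u) = -cq u := by
  ext i j
  simp [cq]

theorem cq_sub (u v : Matrix (Fin g ⊕ Fin g) (Fin g ⊕ Fin g) ℚ) : cq (u - v) = cq u - cq v := by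
  ext i j
  simp [cq]

theorem cq_smul (t : ℚ) (u : Matrix (Fin g ⊕ Fin g) (Fin g ⊕ Fin g) ℚ) :
    cq (t • u) = (t : ℂ) • cq u := by
  ext i j
  simp [cq]

theorem cq_transpose (u : Matrix (Fin g ⊕ Fin g) (Fin g ⊕ Fin g) ℚ) : cq uᵀ = (cq u)ᵀ := rfl

/-- The adjoint of an endomorphism is an endomorphism. -/
theorem ad_comm (hZ : Zᵀ = Z) {u : Matrix (Fin g ⊕ Fin g) (Fin g ⊕ Fin g) ℚ}
    (hu : cq u * DZ Z = DZ Z * cq u) : cq (ad u) * DZ Z = DZ Z * cq (ad u) := by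
  obtain ⟨C, hC⟩ : ∃ C, C = cq u := ⟨_, rfl⟩
  obtain ⟨X, hX⟩ : ∃ X, X = DZ Z := ⟨_, rfl⟩
  have hC' : cq (ad u) = -(Om g ℂ * Cᵀ * Om g ℂ) := by
    unfold ad
    rw [cq_neg, cq_mul, cq_mul, cq_Om, cq_transpose, hC]
  have hO2 := Om_sq (g := g) ℂ
  rw [hC', ← hX]
  rw [← hC, ← hX] at hu
  have h1 : Xᵀ * Om g ℂ = -(Om g ℂ * X) := by
    rw [hX]
    exact eq_neg_of_add_eq_zero_left (sp_C hZ _ (D_mem _))
  have h2 : Cᵀ * Xᵀ = Xᵀ * Cᵀ := by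
    rw [← transpose_mul, ← transpose_mul, hu]
  have h3 : Om g ℂ * Xᵀ = -(X * Om g ℂ) := by
    have h4 : Om g ℂ * (Xᵀ * Om g ℂ) * Om g ℂ = -(Om g ℂ * Xᵀ) := by
      rw [mul_assoc, mul_assoc Xᵀ, hO2, mul_neg_one, mul_neg]
    rw [h1, mul_neg, ← mul_assoc, hO2, neg_one_mul, neg_neg] at h4
    rw [h4, neg_neg]
  calc -(Om g ℂ * Cᵀ * Om g ℂ) * X = Om g ℂ * Cᵀ * (-(Om g ℂ * X)) := by noncomm_ring
  _ = Om g ℂ * (Cᵀ * Xᵀ) * Om g ℂ := by rw [← h1]; noncomm_ring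
  _ = (Om g ℂ * Xᵀ) * Cᵀ * Om g ℂ := by rw [h2]; noncomm_ring
  _ = X * -(Om g ℂ * Cᵀ * Om g ℂ) := by rw [h3]; noncomm_ring

/-- A skew central endomorphism. -/
theorem exists_psi (hZ : Zᵀ = Z) (hY : IsUnit (imM Z).det) (hr : ¬ RealCentre Z) :
    ∃ ψ : Matrix (Fin g ⊕ Fin g) (Fin g ⊕ Fin g) ℚ, ψ ≠ 0 ∧ ψᵀ * Om g ℚ = -(Om g ℚ * ψ) ∧
      cq ψ * DZ Z = DZ Z * cq ψ ∧
      ∀ u : Matrix (Fin g ⊕ Fin g) (Fin g ⊕ Fin g) ℚ, cq u * DZ Z = DZ Z * cq u →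
        ψ * u = u * ψ := by
  unfold RealCentre at hr
  push Not at hr
  obtain ⟨φ, M, hφ, hcen, hne⟩ := hr
  have hφD : cq φ * DZ Z = DZ Z * cq φ := endo_comm hY hφ
  have hφc : ∀ u : Matrix (Fin g ⊕ Fin g) (Fin g ⊕ Fin g) ℚ, cq u * DZ Z = DZ Z * cq u →
      φ * u = u * φ := fun u hu => hcen u _ (endo_of_comm hY hu)
  refine ⟨φ - ad φ, ?_, ?_, ?_, ?_⟩
  · intro h
    apply hne
    rw [← Om_ad, ← sub_eq_zero.1 h]
  · rw [transpose_sub, sub_mul, ad_spec, mul_sub, Om_ad, neg_sub]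
  · rw [cq_sub, sub_mul, mul_sub, hφD, ad_comm hZ hφD]
  · intro u hu
    have h1 := hφc _ (ad_comm hZ hu)
    have h2 : ad φ * u = u * ad φ := by
      have h3 := congrArg ad h1
      rw [ad_mul, ad_mul, ad_ad] at h3
      exact h3.symm
    rw [sub_mul, mul_sub, hφc u hu, h2]

/-- The normalized central endomorphism. -/
theorem exists_phi' (hZ : Zᵀ = Z) (hpos : (imM Z).PosDef) (hs : IsSimpleAV Z) (hg : g ≤ 3)
    (hn : NoE Z) [Nonempty (Fin g)] (hr : ¬ RealCentre Z) :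
    ∃ (φ : Matrix (Fin g ⊕ Fin g) (Fin g ⊕ Fin g) ℚ) (d : ℕ) (μ : ℂ), Squarefree d ∧ μ ≠ 0 ∧
      φ * φ = -((d : ℚ) • (1 : Matrix (Fin g ⊕ Fin g) (Fin g ⊕ Fin g) ℚ)) ∧
      μ * μ = -(d : ℂ) ∧ φᵀ * Om g ℚ = -(Om g ℚ * φ) ∧ cq φ * DZ Z = DZ Z * cq φ ∧
      ∀ u : Matrix (Fin g ⊕ Fin g) (Fin g ⊕ Fin g) ℚ, cq u * DZ Z = DZ Z * cq u →
        φ * u = u * φ := by
  have hY : IsUnit (imM Z).det := hpos.isUnit.map Matrix.detMonoidHom
  obtain ⟨ψ, h0, hsk, hD, hcen⟩ := exists_psi hZ hY hr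
  have hsk' : (cq ψ)ᵀ * Om g ℂ = -(Om g ℂ * cq ψ) := by
    have h1 := congrArg (cq (g := g)) hsk
    rwa [cq_mul, cq_neg, cq_mul, cq_Om, cq_transpose] at h1
  obtain ⟨l, hl, hll⟩ := sq_scalar hY hs hg hn h0 hsk' hD
  obtain ⟨r, hr0, hlr, hψψ⟩ := sq_neg hZ hpos hl hsk' hD hll
  obtain ⟨t, d, ht, hd, htr⟩ := exists_sqfree r hr0
  have htrC : (t : ℂ) * t * r = d := by exact_mod_cast congrArg (fun q : ℚ => (q : ℂ)) htr
  refine ⟨t • ψ, d, (t : ℂ) * l, hd, ?_, ?_, ?_, ?_, ?_, ?_⟩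
  · exact mul_ne_zero (by exact_mod_cast ht) hl
  · rw [smul_mul_smul_comm, hψψ, smul_neg, smul_smul, htr]
  · have h1 : (t : ℂ) * l * (t * l) = (t * t) * (l * l) := by ring
    rw [h1, hlr, mul_neg, htrC]
  · rw [transpose_smul, smul_mul_assoc, hsk, mul_smul_comm, smul_neg]
  · rw [cq_smul, smul_mul_assoc, hD, mul_smul_comm]
  · intro u hu
    rw [smul_mul_assoc, hcen u hu, mul_smul_comm]

/-- Matrices which commute with all conjugates of the Hodge operator commute with the central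
endomorphisms. -/
theorem comm_all {φ : Matrix (Fin g ⊕ Fin g) (Fin g ⊕ Fin g) ℚ}
    (hcen : ∀ u : Matrix (Fin g ⊕ Fin g) (Fin g ⊕ Fin g) ℚ, cq u * DZ Z = DZ Z * cq u →
      φ * u = u * φ) {A : Matrix (Fin g ⊕ Fin g) (Fin g ⊕ Fin g) ℂ}
    (hA : ∀ σ : ℂ ≃+* ℂ, A * (DZ Z).map σ = (DZ Z).map σ * A) : cq φ * A = A * cq φ := by
  let C : Submodule ℂ (Matrix (Fin g ⊕ Fin g) (Fin g ⊕ Fin g) ℂ) :=
    { carrier := {A | ∀ σ : ℂ ≃+* ℂ, A * (DZ Z).map σ = (DZ Z).map σ * A}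
      zero_mem' := fun σ => by rw [zero_mul, mul_zero]
      add_mem' := fun {a b} ha hb σ => by rw [add_mul, mul_add, ha σ, hb σ]
      smul_mem' := fun c a ha σ => by rw [smul_mul_assoc, mul_smul_comm, ha σ] }
  have hC : ∀ A, A ∈ C ↔ ∀ σ : ℂ ≃+* ℂ, A * (DZ Z).map σ = (DZ Z).map σ * A := fun A => Iff.rfl
  refine rational_induction C ?_ (p := fun X => cq φ * X = X * cq φ) ?_ ?_ ?_ ?_ A hA
  · intro τ X hX
    rw [hC] at hX ⊢
    intro σ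
    have h1 := hX (σ.trans τ.symm)
    have h2 := congrArg (fun Y : Matrix _ _ ℂ => Y.map (τ : ℂ →+* ℂ)) h1
    simp only [Matrix.map_mul] at h2
    have h3 : ((DZ Z).map (σ.trans τ.symm)).map (τ : ℂ →+* ℂ) = (DZ Z).map σ := by
      ext i j
      simp
    rw [h3] at h2
    exact h2
  · intro u hu
    rw [hC] at hu
    have h1 := hu (RingEquiv.refl ℂ)
    have h2 : (DZ Z).map (RingEquiv.refl ℂ) = DZ Z := by
      ext i j
      rfl
    rw [h2] at h1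
    have h3 := hcen u h1
    change cq φ * cq u = cq u * cq φ
    rw [← cq_mul, ← cq_mul, h3]
  · rw [mul_zero, zero_mul]
  · intro X Y hX hY
    rw [mul_add, add_mul, hX, hY]
  · intro c X hX
    rw [mul_smul_comm, smul_mul_assoc, hX]

/-- If a conjugate of the Hodge operator is a multiple of an endomorphism then the abelian variety is
of CM type. -/
theorem comm_of_smul {φ : Matrix (Fin g ⊕ Fin g) (Fin g ⊕ Fin g) ℚ} {σ : ℂ ≃+* ℂ} {c : ℂ}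
    (h : (DZ Z).map σ = c • cq φ) : Comm Z := by
  have h1 : DZ Z = σ.symm c • cq φ := by
    have h2 := congrArg (fun Y : Matrix _ _ ℂ => Y.map σ.symm) h
    have h3 : ((DZ Z).map σ).map σ.symm = DZ Z := by
      ext i j
      simp
    have h4 : (c • cq φ).map σ.symm = σ.symm c • cq φ := by
      ext i j
      simp [cq]
    simp only [h3, h4] at h2
    exact h2
  intro τ
  have h2 : (DZ Z).map τ = τ (σ.symm c) • cq φ := by
    rw [h1]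
    ext i j
    simp [cq]
  rw [h2, h1, smul_mul_smul_comm, smul_mul_smul_comm, mul_comm]

/-- The data for the conjugates of the Hodge operator. -/
theorem dat_conj (hZ : Zᵀ = Z) (hY : IsUnit (imM Z).det)
    {φ : Matrix (Fin g ⊕ Fin g) (Fin g ⊕ Fin g) ℚ} {d : ℕ} {μ : ℂ} (hμ : μ ≠ 0)
    (hφφ : φ * φ = -((d : ℚ) • (1 : Matrix (Fin g ⊕ Fin g) (Fin g ⊕ Fin g) ℚ)))
    (hμμ : μ * μ = -(d : ℂ)) (hsk : φᵀ * Om g ℚ = -(Om g ℚ * φ))
    (hD : cq φ * DZ Z = DZ Z * cq φ) (σ : ℂ ≃+* ℂ) :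
    Dat (Om g ℂ) (cq φ) ((DZ Z).map σ) μ where
  hOO := Om_sq ℂ
  hψ := by
    have h1 := congrArg (cq (g := g)) hsk
    rwa [cq_mul, cq_neg, cq_mul, cq_Om, cq_transpose] at h1
  hD := eq_neg_of_add_eq_zero_left (sp_C hZ _ (map_mem_aut (D_mem _) (σ : ℂ →+* ℂ)))
  hDD := by
    have h1 := congrArg (fun Y : Matrix _ _ ℂ => Y.map (σ : ℂ →+* ℂ)) (DZ_sq hY)
    simp only [Matrix.map_mul] at h1
    rw [Matrix.map_one _ (map_zero _) (map_one _)] at h1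
    exact h1
  com := comm_conj hD σ
  sq := by
    rw [← cq_mul, hφφ, cq_neg, cq_smul, hμμ, neg_smul]
    have h1 : cq (1 : Matrix (Fin g ⊕ Fin g) (Fin g ⊕ Fin g) ℚ) = 1 :=
      Matrix.map_one _ (by simp) (by simp)
    rw [h1]
    simp
  hl := hμ

/-- The case of a centre which is not totally real. -/
theorem case_imag (hZ : Zᵀ = Z) (hpos : (imM Z).PosDef) (hs : IsSimpleAV Z) (hg : g ≤ 3)
    (hc : ¬ Comm Z) (hn : NoE Z) (hr : ¬ RealCentre Z) : g = 3 ∧ Nonempty (KZ Z) := by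
  have hY : IsUnit (imM Z).det := hpos.isUnit.map Matrix.detMonoidHom
  have hne : Nonempty (Fin g) := by
    by_contra hne
    rw [not_nonempty_iff] at hne
    apply hc
    intro σ
    ext i j
    rcases i with i | i
    · exact hne.elim i
    · exact hne.elim i
  obtain ⟨φ, d, μ, hd, hμ, hφφ, hμμ, hsk, hD, hcen⟩ := exists_phi' hZ hpos hs hg hn hr
  have hdat := dat_conj hZ hY hμ hφφ hμμ hsk hD
  have hdims : ∀ σ : ℂ ≃+* ℂ, finrank ℂ (ES (cq φ) ((DZ Z).map σ) μ 1) ≠ 0 ∧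
      finrank ℂ (ES (cq φ) ((DZ Z).map σ) μ (-1)) ≠ 0 ∧
      finrank ℂ (ES (cq φ) ((DZ Z).map σ) μ 1) +
      finrank ℂ (ES (cq φ) ((DZ Z).map σ) μ (-1)) = g := by
    intro σ
    have h1 := (hdat σ).dims.2.2
    rw [Fintype.card_sum, Fintype.card_fin] at h1
    refine ⟨fun h0 => ?_, fun h0 => ?_, by omega⟩
    · obtain ⟨c, h2⟩ := (hdat σ).scalar (Or.inl h0)
      exact hc (comm_of_smul h2)
    · obtain ⟨c, h2⟩ := (hdat σ).scalar (Or.inr h0)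
      exact hc (comm_of_smul h2)
  have hD1 : (DZ Z).map (RingEquiv.refl ℂ) = DZ Z := by
    ext i j
    rfl
  have hdat1 := hdat (RingEquiv.refl ℂ)
  have hdims1 := hdims (RingEquiv.refl ℂ)
  rw [hD1] at hdat1 hdims1
  obtain ⟨ha, hb, hab⟩ := hdims1
  by_cases hg3 : g = 3
  · refine ⟨hg3, ?_⟩
    subst hg3
    have key : ∃ k : ℂ, Dat (Om 3 ℂ) (cq φ) (DZ Z) k ∧ k * k = -(d : ℂ) ∧
        finrank ℂ (ES (cq φ) (DZ Z) k 1) = 2 ∧ finrank ℂ (ES (cq φ) (DZ Z) k (-1)) = 1 := by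
      have h1 : (finrank ℂ (ES (cq φ) (DZ Z) μ 1) = 2 ∧
          finrank ℂ (ES (cq φ) (DZ Z) μ (-1)) = 1) ∨ (finrank ℂ (ES (cq φ) (DZ Z) μ 1) = 1 ∧
          finrank ℂ (ES (cq φ) (DZ Z) μ (-1)) = 2) := by omega
      rcases h1 with ⟨h2, h3⟩ | ⟨h2, h3⟩
      · exact ⟨μ, hdat1, hμμ, h2, h3⟩
      · obtain ⟨k1, k2, -⟩ := hdat1.dims
        refine ⟨-μ, hdat1.neg, by rw [neg_mul_neg, hμμ], ?_, ?_⟩
        · rw [k2, h3]
        · rw [k1, h2]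
    obtain ⟨k, hk, hkk, h2, h3⟩ := key
    obtain ⟨u, v, e1, e2, e3, e4, e5⟩ := hk.basis h2 h3
    exact ⟨{
      hg := Or.inr rfl
      φ := φ
      d := d
      hd := hd
      sq := hφφ
      com := hD
      skew := hsk
      μ := k
      hμ := hkk
      u := u
      v := v
      hu := e1
      hv := e2
      dual := e3
      hDu := e4
      hDv := e5 }⟩
  · exfalso
    have hg2 : g = 2 := by omega
    have ha1 : finrank ℂ (ES (cq φ) (DZ Z) μ 1) = 1 := by omega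
    have hb1 : finrank ℂ (ES (cq φ) (DZ Z) μ (-1)) = 1 := by omega
    obtain ⟨x, hx0, -⟩ := finrank_eq_one_iff'.1 ha1
    obtain ⟨y, hy0, -⟩ := finrank_eq_one_iff'.1 hb1
    have hcom : ∀ σ : ℂ ≃+* ℂ, WW (Om g ℂ) (x : Fin g ⊕ Fin g → ℂ) y * (DZ Z).map σ =
        (DZ Z).map σ * WW (Om g ℂ) (x : Fin g ⊕ Fin g → ℂ) y := by
      intro σ
      obtain ⟨h1, h2, h3⟩ := hdims σ
      exact ((hdat σ).comm_WW (by omega) (by omega) x.2.1 y.2.1).symm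
    have h1 := comm_all hcen hcom
    rcases hdat1.not_comm x.2 y.2 h1 with h2 | h2
    · exact hx0 (Subtype.ext h2)
    · exact hy0 (Subtype.ext h2)

/-- The case of odd rank. -/
theorem pcs_of_odd (hZ : Zᵀ = Z) (hpos : (imM Z).PosDef) (hs : IsSimpleAV Z)
    {N : Matrix (Fin g ⊕ Fin g) (Fin g ⊕ Fin g) ℂ} (hN : N ∈ LA (DZ '' {Z})) (hN2 : N * N = 0)
    (hodd : Odd N.rank) : HasPcs (DZ Z) := by
  have hY : IsUnit (imM Z).det := hpos.isUnit.map Matrix.detMonoidHom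
  have hW : IsPer ({Z} : Set (Matrix (Fin g) (Fin g) ℂ)) := by
    intro Z' hZ'
    rw [Set.mem_singleton_iff] at hZ'
    rw [hZ']
    exact ⟨hZ, hpos⟩
  have h1 : LA (DZ '' {Z}) ≤ lieM (DZ Z) ℂ := by
    refine LA_le_lieM ?_
    rintro _ ⟨Z', hZ', rfl⟩
    rw [Set.mem_singleton_iff] at hZ'
    rw [hZ']
    exact D_mem _
  obtain ⟨e, he, he1⟩ := exists_rank_one hW (Set.mem_singleton Z) hs (ε := 1) (N := N)
    (fun X _ => by rw [one_mul, mul_one]) (one_mul 1)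
    (by rw [Matrix.transpose_one, one_mul, mul_one]) (fun c _ => by rw [one_mul, mul_one])
    hN hN2 (by rw [one_mul]; exact hodd)
  obtain ⟨v, hv, h3⟩ := sq_of_rank_one hZ (h1 he) he1
  exact hasPcs_of_top (Om_transpose ℂ) (Om_unit ℂ) (sp_C hZ)
    (UU_eq_top hZ hY hs ⟨v, good_of_sq_gen hZ hpos hv h3⟩)

/-- A nonzero element with square zero. -/
theorem exists_sq_zero (hY : IsUnit (imM Z).det) (hc : ¬ Comm Z) :
    ∃ N ∈ LA (DZ '' {Z}), N * N = 0 ∧ N ≠ 0 := by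
  unfold Comm at hc
  push Not at hc
  obtain ⟨σ, hσ⟩ := hc
  obtain ⟨Q, hQ⟩ : ∃ Q, Q = (DZ Z).map σ := ⟨_, rfl⟩
  obtain ⟨P, hP⟩ : ∃ P, P = DZ Z := ⟨_, rfl⟩
  have hPm : P ∈ LA (DZ '' {Z}) := by
    rw [hP]
    exact LA_self ⟨Z, rfl, rfl⟩
  have hQm : Q ∈ LA (DZ '' {Z}) := by
    rw [hQ]
    exact LA_aut (σ : ℂ →+* ℂ) (LA_self ⟨Z, rfl, rfl⟩)
  have hPP : P * P = 1 := by
    rw [hP]
    exact DZ_sq hY
  rw [← hQ, ← hP] at hσ
  have hPP' : (-P) * (-P) = 1 := by rw [neg_mul_neg, hPP]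
  have key : ∀ P : Matrix (Fin g ⊕ Fin g) (Fin g ⊕ Fin g) ℂ, P * P = 1 →
      (1 + P) * Q * (1 - P) * ((1 + P) * Q * (1 - P)) = 0 := by
    intro P hPP
    have h1 : (1 - P) * (1 + P) = 1 - P * P := by noncomm_ring
    have h2 : (1 + P) * Q * (1 - P) * ((1 + P) * Q * (1 - P)) =
        (1 + P) * Q * ((1 - P) * (1 + P)) * (Q * (1 - P)) := by noncomm_ring
    rw [h2, h1, hPP, sub_self, mul_zero, zero_mul]
  by_cases h0 : (1 + P) * Q * (1 - P) = 0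
  · refine ⟨_, jump_mem (Submodule.neg_mem _ hPm) hQm hPP', key _ hPP', ?_⟩
    intro h1
    apply hσ
    have h2 : (1 + P) * Q * (1 - P) - (1 + -P) * Q * (1 - -P) =
        (2 : ℂ) • (P * Q - Q * P) := by
      rw [two_smul]
      noncomm_ring
    rw [h0, h1, sub_zero] at h2
    have h3 := (smul_eq_zero.1 h2.symm).resolve_left two_ne_zero
    exact (sub_eq_zero.1 h3).symm
  · exact ⟨_, jump_mem hPm hQm hPP, key _ hPP, h0⟩

/-- The trichotomy. -/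
theorem tri (h : S_noe) : S_tri := by
  intro g Z hZ hpos hs hg
  by_cases hc : Comm Z
  · exact Or.inl hc
  right
  have hY : IsUnit (imM Z).det := hpos.isUnit.map Matrix.detMonoidHom
  have hn : NoE Z := h g Z hZ hpos hs hc
  by_cases hr : RealCentre Z
  · left
    obtain ⟨N, hN, hN2, hN0⟩ := exists_sq_zero hY hc
    have h1 : LA (DZ '' {Z}) ≤ lieM (DZ Z) ℂ := by
      refine LA_le_lieM ?_
      rintro _ ⟨Z', hZ', rfl⟩
      rw [Set.mem_singleton_iff] at hZ'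
      rw [hZ']
      exact D_mem _
    have hrk : N.rank + N.rank ≤ 2 * g := by
      have h2 := Matrix.rank_add_rank_le_card_of_mul_eq_zero hN2
      rw [Fintype.card_sum, Fintype.card_fin] at h2
      omega
    by_cases h2 : N.rank ≤ 2
    · exact hasPcs_of_rank hZ hpos hs hr (h1 hN) hN0 h2
    · refine pcs_of_odd hZ hpos hs hN hN2 ?_
      have h3 : N.rank = 3 := by omega
      rw [h3]
      decide
  · right
    exact case_imag hZ hpos hs hg hc hn hr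

end Pool.Agent.Q6.D3
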